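import Pool.Agent.NH34.Gal.Defs
import Pool.Agent.NH34.Lin.Small
import Pool.Agent.Y133.Half.PredSys

/-!
# Tate classes: basic properties
-/

open CategoryTheory AlgebraicGeometry

universe u v w

namespace Pool.Agent.NH34.Gal

open Pool.Agent.H914 Pool.Agent.H914.VarClass Pool.Agent.H914.VarClass.Obj
  Pool.Agent.H914.WeilCohomology
open Pool.Agent.NH34.Lin
open Pool.Agent.Y133.Half (ClassPred)


variable {k : Type u} [Field k] {𝒱 : VarClass k} {ops : CycleOps 𝒱}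
  {W : WeilCohomology.{u, v} ops} {Γ : Type w} [Group Γ] {G : ActionData W Γ}
  {X Y : 𝒱.Obj}

lemma IsTate.zero {j : ℕ} : IsTate G X j 0 :=
  ⟨Submodule.zero_mem _, ForSmall.of_all fun g hX => by
    change _ = _
    rw [map_zero, smul_zero]⟩

lemma IsTate.add {j : ℕ} {a b : W.H X} (ha : IsTate G X j a) (hb : IsTate G X j b) :
    IsTate G X j (a + b) :=
  ⟨Submodule.add_mem _ ha.1 hb.1, (ha.2.and hb.2).mono fun g hg hX => by
    change _ = _
    rw [map_add, hg.1 hX, hg.2 hX, smul_add]⟩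

lemma IsTate.smul {j : ℕ} (r : W.K) {a : W.H X} (ha : IsTate G X j a) :
    IsTate G X j (r • a) :=
  ⟨Submodule.smul_mem _ _ ha.1, ha.2.mono fun g hg hX => by
    change _ = _
    rw [map_smul, hg hX, smul_comm]⟩

lemma IsTate.mul {i j : ℕ} {a b : W.H X} (ha : IsTate G X i a) (hb : IsTate G X j b) :
    IsTate G X (i + j) (a * b) := by
  refine ⟨?_, (ha.2.and hb.2).mono fun g hg hX => ?_⟩
  · have := W.mul_mem ha.1 hb.1
    rwa [show 2 * i + 2 * j = 2 * (i + j) by ring] at this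
  · change _ = _
    rw [map_mul, hg.1 hX, hg.2 hX, smul_mul_smul_comm, pow_add]

variable (hG : IsGaloisTheory G)
include hG

lemma IsTate.cl {j : ℕ} {z : X.Cycles} (hz : X.IsCyc j z) : IsTate G X j (W.cl X z) :=
  ⟨W.cl_mem hz, hG.cl_act X j z hz⟩

lemma IsTate.map (f : X ⟶ Y) {j : ℕ} {a : W.H Y} (ha : IsTate G Y j a) :
    IsTate G X j (W.map f a) := by
  refine ⟨W.map_mem f ha.1, ?_⟩
  refine ((ha.2.and (hG.map_act X Y f)).and (ForSmall.mem (hG.finite Y))).mono ?_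
  rintro g ⟨⟨h1, h2⟩, hY⟩ hX
  change _ = _
  rw [h2 hX hY, h1 hY, map_smul]

lemma push_act (f : X ⟶ Y) : ForSmall fun g => ∀ (hX : g ∈ G.D X) (hY : g ∈ G.D Y) (a : W.H X),
    (G.χ g : W.K) ^ X.dim • G.act Y ⟨g, hY⟩ (W.push f a) =
      (G.χ g : W.K) ^ Y.dim • W.push f (G.act X ⟨g, hX⟩ a) := by
  refine (hG.map_act X Y f).mono fun g hg hX hY a => ?_
  apply tr_ext
  intro b
  obtain ⟨b', rfl⟩ := (G.act Y ⟨g, hY⟩).surjective b
  rw [smul_mul_assoc, smul_mul_assoc, map_smul, map_smul, ← map_mul, hG.tr_act Y ⟨g, hY⟩,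
    W.tr_push, W.tr_push, ← hg hX hY, ← map_mul, hG.tr_act X ⟨g, hX⟩, smul_eq_mul, smul_eq_mul]
  ring

lemma IsTate.push (f : X ⟶ Y) {j l : ℕ} (hl : l + X.dim = j + Y.dim) {a : W.H X}
    (ha : IsTate G X j a) : IsTate G Y l (W.push f a) := by
  refine ⟨?_, ?_⟩
  · have h2 := W.push_mem f ha.1
    have e1 : ((2 * j : ℕ) : ℤ) + 2 * ((Y.dim : ℤ) - X.dim) = ((2 * l : ℕ) : ℤ) := by
      push_cast; omega
    rw [e1, grZ_natCast] at h2
    exact h2
  refine ((ha.2.and (push_act hG f)).and (ForSmall.mem (hG.finite X))).mono ?_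
  rintro g ⟨⟨h1, h2⟩, hX⟩ hY
  have h3 := h2 hX hY a
  rw [h1 hX, map_smul, smul_smul, ← pow_add, add_comm Y.dim, ← hl, pow_add, mul_comm,
    ← smul_smul] at h3
  exact smul_right_injective (W.H Y) (pow_ne_zero X.dim (G.χ g).ne_zero) h3

/-- The Tate classes. -/
def tatePred : ClassPred W where
  P := IsTate G
  gr h := h.1
  zero := IsTate.zero
  add := IsTate.add
  smul r _ ha := ha.smul r
  cl hz := IsTate.cl hG hz
  mul := IsTate.mul
  map f _ _ ha := ha.map hG f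
  push f _ _ hl _ ha := ha.push hG f hl

/-- The action on classes on a product, as correspondences. -/
lemma corr_act {j : ℕ} {c : W.H (X.prod Y)} (hc : IsTate G (X.prod Y) j c) :
    ForSmall fun g => ∀ (hX : g ∈ G.D X) (hY : g ∈ G.D Y) (a : W.H X),
      (G.χ g : W.K) ^ X.dim • G.act Y ⟨g, hY⟩ (W.corr c a) =
        (G.χ g : W.K) ^ j • W.corr c (G.act X ⟨g, hX⟩ a) := by
  refine (((hc.2.and (push_act hG (snd X Y))).and (ForSmall.mem (hG.finite (X.prod Y)))).and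
    (hG.map_act _ _ (fst X Y))).mono ?_
  rintro g ⟨⟨⟨h1, h2⟩, hZ⟩, h3⟩ hX hY a
  have h4 := h2 hZ hY (c * W.map (fst X Y) a)
  rw [map_mul (G.act (X.prod Y) ⟨g, hZ⟩), h1 hZ, h3 hZ hX, smul_mul_assoc, map_smul] at h4
  rw [corr_apply, corr_apply]
  have e : (X.prod Y).dim = Y.dim + X.dim := by rw [dim_prod, add_comm]
  rw [e, pow_add, ← smul_smul] at h4
  exact smul_right_injective (W.H Y) (pow_ne_zero Y.dim (G.χ g).ne_zero) h4

end Pool.Agent.NH34.Gal
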