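import Pool.Agent.NH34.Gal.Defs
import Pool.Agent.NH34.Lin.CDefs

/-!
# Continuous Galois actions: definitions
-/

open CategoryTheory AlgebraicGeometry

universe u v w

namespace Pool.Agent.NH34.Gal

open Pool.Agent.H914 Pool.Agent.H914.VarClass Pool.Agent.H914.VarClass.Obj
  Pool.Agent.H914.WeilCohomology
open Pool.Agent.NH34.Lin

variable {k : Type u} [Field k] {𝒱 : VarClass k} {ops : CycleOps 𝒱}
  {W : WeilCohomology.{u, v} ops} {Γ : Type w} [Group Γ] [TopologicalSpace Γ] {ℓ : ℕ}
  [Fact ℓ.Prime]

/-- The Galois actions on the Tate twists and on the cohomology of all varieties are continuous, and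
the subgroups `D X` are open (`e` identifies the field of coefficients with `ℚ_ℓ`). -/
def IsContinuousTheory (e : W.K ≃+* ℚ_[ℓ]) (G : ActionData W Γ) : Prop :=
  IsContinuousChar e G.χ ∧ ∀ X, IsContinuousRep e (G.act X)

end Pool.Agent.NH34.Gal
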