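import Pool.Agent.H914R2.StdDefs
import Pool.Agent.NH34.Lin.Defs

/-!
# Galois actions on the cohomology of all varieties: definitions

In the intended use `k` is an algebraic closure of a field `F`, `Γ` the Galois group of `k` over `F`, and
`W` is `ℓ`-adic cohomology.  Every variety `X` over `k` is defined over a finite extension `F'` of `F`,
and the subgroup `D X` of the elements of `Γ` which fix `F'` acts on the cohomology of `X`.
-/

open CategoryTheory AlgebraicGeometry

universe u v w

namespace Pool.Agent.NH34.Gal

open Pool.Agent.H914 Pool.Agent.H914.VarClass Pool.Agent.H914.VarClass.Obj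
  Pool.Agent.H914.WeilCohomology
open Pool.Agent.NH34.Lin

variable {k : Type u} [Field k] {𝒱 : VarClass k} {ops : CycleOps 𝒱}

/-- The data of Galois actions: a group `Γ` with a character `χ` (the action on the Tate twists), and
for every variety `X` a subgroup `D X` of `Γ` (the Galois group of a field of definition of `X`) which
acts on the cohomology algebra of `X`. -/
structure ActionData (W : WeilCohomology.{u, v} ops) (Γ : Type w) [Group Γ] where
  /-- the action on the Tate twists -/
  χ : Γ →* W.Kˣ
  /-- the Galois group of a field of definition -/
  D : 𝒱.Obj → Subgroup Γ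
  /-- the action -/
  act : ∀ X : 𝒱.Obj, AutRep W.K (W.H X) (D X)

variable {W : WeilCohomology.{u, v} ops} {Γ : Type w} [Group Γ]

/-- The formal properties of the Galois actions on `ℓ`-adic cohomology: the subgroups `D X` are of
finite index, `D X` respects the grading and multiplies the orientation by `χ ^ (dim X)`; every
morphism is defined over a finite extension, so that the pull-back commutes with the elements of a
subgroup of finite index; and every cycle of codimension `j` is defined over a finite extension, so
that its class is multiplied by `χ ^ j` by the elements of a subgroup of finite index. -/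
structure IsGaloisTheory (G : ActionData W Γ) : Prop where
  finite : ∀ X, (G.D X).FiniteIndex
  gr_mem : ∀ X, RespectsGrading (G.act X) (W.gr X)
  tr_act : ∀ X, TwistsForm G.χ (G.act X) X.dim (W.tr X)
  map_act : ∀ (X Y : 𝒱.Obj) (f : X ⟶ Y), AlmostEquivariant (G.act X) (G.act Y) (W.map f)
  cl_act : ∀ (X : 𝒱.Obj) (j : ℕ) (z : X.Cycles), X.IsCyc j z →
    AlmostTwisted G.χ (G.act X) j (W.cl X z)

/-- The Tate classes of codimension `j` on `X`: the elements `c` of `H^(2 j)(X)` which are multiplied
by `χ g ^ j` by all `g` in a subgroup of finite index. -/
def IsTate (G : ActionData W Γ) (X : 𝒱.Obj) (j : ℕ) (c : W.H X) : Prop :=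
  TateIn G.χ (G.act X) (W.gr X) j c

end Pool.Agent.NH34.Gal
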