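import Pool.Agent.NH34.Gal.Defs
import Pool.Agent.NH34.Lin.QDefs

/-!
# Varieties over the rational numbers: definitions
-/

open CategoryTheory AlgebraicGeometry NumberField Polynomial

universe v

namespace Pool.Agent.NH34.Gal

open Pool.Agent.H914 Pool.Agent.H914.VarClass Pool.Agent.H914.VarClass.Obj
  Pool.Agent.H914.WeilCohomology
open Pool.Agent.NH34.Lin

section Stable

universe u w

variable {k : Type u} [Field k] {𝒱 : VarClass k} {ops : CycleOps 𝒱}
  {W : WeilCohomology.{u, v} ops} {Γ : Type w} [Group Γ]

/-- The subspace `U` of the cohomology of `X` is stable under the action of the subgroup `D X`. -/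
def IsStable (G : ActionData W Γ) (X : 𝒱.Obj) (U : Submodule W.K (W.H X)) : Prop :=
  StableUnder (G.act X) U

/-- The representation of `D X` on `H^i(X)` is semisimple: every stable subspace `U` has a stable
complement `U'`. -/
def SemisimpleIn (G : ActionData W Γ) (X : 𝒱.Obj) (i : ℕ) : Prop :=
  SemisimpleOn (G.act X) (W.gr X i)

end Stable

variable {𝒱 : VarClass (AlgebraicClosure ℚ)} {ops : CycleOps 𝒱}
  {W : WeilCohomology.{0, v} ops} {ℓ : ℕ} [Fact ℓ.Prime]

/-- The formal properties of the action of the absolute Galois group of `ℚ` on the `ℓ`-adic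
cohomology of a smooth projective variety `X` over the rational numbers (`e` identifies the field of
coefficients with `ℚ_ℓ`): it is continuous, and outside of the finite set `S` of the prime number `ℓ`
and of the prime numbers of bad reduction the inverse of a Frobenius element at `q` acts on the
Tate twists by `q` and on `H^i(X)` with a characteristic polynomial `P i q` with integral
coefficients, whose complex roots have absolute value `q ^ (i / 2)`. -/
def OverQ (e : W.K ≃+* ℚ_[ℓ]) (G : ActionData W GQ) (X : 𝒱.Obj) (S : Finset ℕ)
    (P : ℕ → ℕ → ℤ[X]) : Prop :=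
  IsPureRep e G.χ (G.act X) (W.gr X) S P

end Pool.Agent.NH34.Gal
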