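import Mathlib
import Pool.Agent.NH34.Lin.QDefs

/-!
# The topology of the absolute Galois group of the rational numbers
-/

namespace Pool.Agent.NH34.Gal

open Pool.Agent.NH34.Lin

theorem isGaloisQ : IsGalois ℚ (AlgebraicClosure ℚ) := by
  have key : ∀ a : Algebra ℚ (AlgebraicClosure ℚ), @IsGalois ℚ _ (AlgebraicClosure ℚ) _ a := by
    intro a
    have h : a = AlgebraicClosure.instAlgebra (R := ℚ) (k := ℚ) := Subsingleton.elim _ _
    rw [h]
    have h1 : @IsAlgClosure ℚ (AlgebraicClosure ℚ) _ _
        (AlgebraicClosure.instAlgebra (R := ℚ) (k := ℚ)) _ :=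
      @IsAlgClosure.mk ℚ (AlgebraicClosure ℚ) _ _
        (AlgebraicClosure.instAlgebra (R := ℚ) (k := ℚ)) _
        inferInstance (AlgebraicClosure.isAlgebraic ℚ)
    exact @IsAlgClosure.isGalois ℚ (AlgebraicClosure ℚ) _ _
      (AlgebraicClosure.instAlgebra (R := ℚ) (k := ℚ)) h1 _
  exact key _

theorem compactGQ : CompactSpace GQ := by
  have := isGaloisQ
  infer_instance

theorem tdGQ : TotallyDisconnectedSpace GQ := by
  have := isGaloisQ
  infer_instance

end Pool.Agent.NH34.Gal
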